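import Mathlib
import Pool.Agent.H375Z.Sm.Defs
import Pool.Agent.H375Z.Sm.Final

set_option autoImplicit false

/-!
# Uniform plane systems: the general member is smooth on the blow-up

For `r > 9` general points and equal multiplicities `m` with `m ≤ r - 6 √r + 10` (or `r` a square,
or the numerical condition below), in every degree `d` whose expected dimension does not lie in
`[0, m - 1]`, the system is non-special and, if it is not empty, its general member is a smooth
curve on the blow-up.
-/

namespace Pool.Agent.Results.MP_0421d9_ag.AUniform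

open Pool.Agent.H375Z.Sm

theorem result (r m d : ℕ) (hr : 9 < r) (hm : 0 < m)
    (h : (m : ℝ) ≤ r - 6 * Real.sqrt r + 10 ∨
      ∃ δ κ : ℕ, 2 ≤ δ ∧ r = δ ^ 2 + 2 * κ ∧
        (κ = 0 ∨ (r * m + 2) * (m + 1) < δ ^ 2 * (δ ^ 2 + 3) * (δ ^ 2 + 4)))
    (hd : (d + 2).choose 2 ≤ r * (m + 1).choose 2 ∨
      r * (m + 1).choose 2 + m + 1 ≤ (d + 2).choose 2) :
    GeneralPoints r fun P => Function.Injective P ∧
      Module.finrank ℂ (sys P (fun _ => m) d) = (d + 2).choose 2 - r * (m + 1).choose 2 ∧
      (sys P (fun _ => m) d ≠ ⊥ →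
        GeneralMember (sys P (fun _ => m) d) (SmoothOnBlowup P fun _ => m)) :=
  uniform_final hr hm h d hd

end Pool.Agent.Results.MP_0421d9_ag.AUniform
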