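import Mathlib
import Pool.Agent.H375Z.Sm.Defs
import Pool.Agent.H375Z.Sm.Bounded

set_option autoImplicit false

/-!
# Arbitrary bounded multiplicities: smooth general member in degrees of order `μ ^ (3 / 2)`

For general points with arbitrary multiplicities `m i ≤ μ`, in every degree `d` with
`d (d + 1) ≥ (μ + 1) (μ + 2) (μ + 6 √(μ + 1) + 11)`, if the expected dimension is at least `μ`,
and at least `μ + 2 (μ + 2).choose 3` when the simple points are left out, then the system is
non-special and its general member is a smooth curve on the blow-up.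
-/

namespace Pool.Agent.Results.MP_0421d9_ag.BBounded

open Pool.Agent.H375Z.Sm

theorem result (r μ d : ℕ) (m : Fin r → ℕ) (hr : 0 < r) (hμ : 2 ≤ μ) (hm : ∀ i, m i ≤ μ)
    (h1 : ((μ : ℝ) + 1) * (μ + 2) * (μ + 6 * Real.sqrt (μ + 1) + 11) ≤ d * (d + 1))
    (h2 : ∑ i ∈ Finset.univ.filter (fun i => m i ≠ 1), (m i + 1).choose 2
      + 2 * (μ + 2).choose 3 + (μ + 1) ≤ (d + 2).choose 2)
    (h3 : ∑ i, (m i + 1).choose 2 + (μ + 1) ≤ (d + 2).choose 2) :
    GeneralPoints r fun P => Function.Injective P ∧
      Module.finrank ℂ (sys P m d) = (d + 2).choose 2 - ∑ i, (m i + 1).choose 2 ∧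
      GeneralMember (sys P m d) (SmoothOnBlowup P m) :=
  bounded_final hr hμ hm h1 h2 h3

end Pool.Agent.Results.MP_0421d9_ag.BBounded
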