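import Mathlib
import Pool.Agent.H375Z.Sm.Defs
import Pool.Agent.H375Z.Sm.CritFinal

set_option autoImplicit false

/-!
# A smoothness criterion from independence of conditions

If, for every `i`, the multiplicities `m + e i` impose independent conditions on forms of degree
`d + 1` at some configuration, and the multiplicities `m - 1` impose independent conditions on
forms of degree `d` at some configuration, then at general points the system of degree `d + 1` and
multiplicities `m` is non-special and its general member is a smooth curve on the blow-up.
-/

namespace Pool.Agent.Results.MP_0421d9_ag.CCriterion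

open Pool.Agent.H375Z.Sm

theorem result (r d : ℕ) (m : Fin r → ℕ) (hr : 0 < r)
    (h1 : ∀ i, ∃ P, Module.finrank ℂ (sys P (Function.update m i (m i + 1)) (d + 1)) +
      ∑ j, (Function.update m i (m i + 1) j + 1).choose 2 = (d + 1 + 2).choose 2)
    (h2 : ∃ P, Module.finrank ℂ (sys P (fun j => m j - 1) d) +
      ∑ j, (m j - 1 + 1).choose 2 = (d + 2).choose 2) :
    GeneralPoints r fun P => Function.Injective P ∧
      Module.finrank ℂ (sys P m (d + 1)) + ∑ j, (m j + 1).choose 2 = (d + 1 + 2).choose 2 ∧
      GeneralMember (sys P m (d + 1)) (SmoothOnBlowup P m) :=
  criterion_full hr m d h1 h2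

end Pool.Agent.Results.MP_0421d9_ag.CCriterion
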